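import Pool.Agent.helper51.VR.Spec

/-!
# Project vr (MP_24e2e7_nt): row TR2
-/

set_option autoImplicit false

namespace Pool.Agent.VR

open Pool.Agent.RB NumberField IsDedekindDomain Module
open scoped nonZeroDivisors Real Classical IsMulCommutative

theorem TR2_IsGH {F H : Type} [Field F] [NumberField F] [Field H] [NumberField H] [Algebra F H] [IsAbelianGalois F H]
    (U : Subgroup Hˣ) (W : Type) [AddCommGroup W] [Module (MonoidAlgebra ℚ (H ≃ₐ[F] H)) W] (ι : Additive U →+ W)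
    (hι : isQU (F := F) U ι) (f : W →ₗ[MonoidAlgebra ℚ (H ≃ₐ[F] H)] MonoidAlgebra ℚ (H ≃ₐ[F] H))
    (hf : ∀ x, ∃ y : MonoidAlgebra ℤ (H ≃ₐ[F] H), f (ι x) = zq y) :
    ∃ φ : Hˣ → MonoidAlgebra ℤ (H ≃ₐ[F] H), IsGH U φ ∧ ∀ x : U, f (ι (Additive.ofMul x)) = zq (φ (x : Hˣ)) := by
  refine ⟨fun x => if hx : x ∈ U then CF2_p ι f (map_add f) hf (Additive.ofMul ⟨x, hx⟩) else 0, ⟨?_, ?_⟩, ?_⟩
  · intro x hx y hy
    rw [dif_pos hx, dif_pos hy, dif_pos (U.mul_mem hx hy), ← map_add]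
    rfl
  · intro σ x hx y hy h
    rw [dif_pos hx, dif_pos hy]
    apply CF2_zq_inj
    rw [map_mul, ← CF2_p_spec, ← CF2_p_spec, CF2_zq_single, hι.equiv σ ⟨x, hx⟩ ⟨y, hy⟩ h, map_smul, smul_eq_mul]
  · intro x
    simp only
    rw [dif_pos x.2, ← CF2_p_spec]

theorem TR2_pow {R : Type} [CommRing R] (a b t : R) (h : a * t = b * t) (r : ℕ) : a ^ r * t = b ^ r * t := by
  induction r with
  | zero => simp
  | succ r ih =>
    rw [pow_succ, mul_assoc, h, ← mul_assoc, mul_comm (a ^ r) b, mul_assoc, ih, pow_succ, ← mul_assoc, mul_comm b]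

theorem TR2 (hDSY : DSY_stmt) (hPWR : PWR_stmt) (hFCT : FCT_stmt) : TR2_stmt := by
  intro F H _ _ _ _ _ _ _ r hr D W _ _ ι hι o ho u hRub
  obtain ⟨N, hN0, hN⟩ := UNI (H ≃ₐ[F] H) (Additive (Ut F H (D.T : Set (HOS F)) (Set.range D.v))) W ι
    hι.denom (Wm D.c W) r u
  refine ⟨N / 2 ^ N.factorization 2, ?_, ?_⟩
  · rw [← Nat.coprime_two_right]
    exact (Nat.coprime_ordCompl Nat.prime_two hN0).symm
  intro f hf
  obtain ⟨hinj1, hinj2⟩ := vr_inj F H r D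
  obtain ⟨n, v, hn, hv1, hv2⟩ := hDSY F H r D
  choose φ hφ1 hφ2 using fun i => TR2_IsGH (F := F) _ W ι hι (f i) (hf i)
  obtain ⟨d, y, hd, hy⟩ := hRub n v ⟨hn, hv1, hv2⟩ φ hφ1
  have hιs : ∀ (g : H ≃ₐ[F] H) (x : Additive (Ut F H (D.T : Set (HOS F)) (Set.range D.v))),
      ι (CF2_s ORD (D.T : Set (HOS F)) (Set.range D.v) g x) = (MonoidAlgebra.single g 1 : MonoidAlgebra ℚ (H ≃ₐ[F] H)) • ι x := by
    intro g x
    exact hι.equiv g (Additive.toMul x) (Additive.toMul (CF2_s ORD (D.T : Set (HOS F)) (Set.range D.v) g x)) (CF2_s_val ORD (D.T : Set (HOS F)) (Set.range D.v) g x)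
  -- the elements of the minus part
  have hx : ∀ k, ι (Additive.ofMul ⟨v k, (hv1 k).1⟩) ∈ Wm D.c W := by
    intro k
    show (MonoidAlgebra.single D.c 1 : MonoidAlgebra ℚ (H ≃ₐ[F] H)) • ι (Additive.ofMul ⟨v k, (hv1 k).1⟩) =
      - ι (Additive.ofMul ⟨v k, (hv1 k).1⟩)
    rw [← hιs, ← map_neg]
    apply congrArg
    rw [eq_neg_iff_add_eq_zero, add_comm]
    apply Additive.toMul.injective
    apply Subtype.ext
    apply Units.ext
    exact (hv1 k).2
  -- injectivity on the minus part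
  have hWm : ∀ w : W, (MonoidAlgebra.single D.c 1 : MonoidAlgebra ℚ (H ≃ₐ[F] H)) • w = -w →
      (∀ j, o j w = 0) → w = 0 := by
    intro w hw hwo
    obtain ⟨n, x, hn, hx⟩ := hι.denom w
    have h1 : ι (Additive.ofMul x + CF2_s ORD (D.T : Set (HOS F)) (Set.range D.v) D.c (Additive.ofMul x)) = 0 := by
      rw [map_add, hιs, ← hx, smul_comm, hw, smul_neg, add_neg_cancel]
    obtain ⟨n', hn', hx'⟩ := hι.ker (x * Additive.toMul (CF2_s ORD (D.T : Set (HOS F)) (Set.range D.v) D.c (Additive.ofMul x))) h1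
    have h2 := hinj2 _ (x * Additive.toMul (CF2_s ORD (D.T : Set (HOS F)) (Set.range D.v) D.c (Additive.ofMul x))).2 n' hn'
      (congrArg Subtype.val hx')
    have h3 : ((x : Hˣ) : H) * D.c ((x : Hˣ) : H) = 1 := congrArg Units.val h2
    have h4 : ∀ j, ordZ F (D.w j) ((x : Hˣ) : H) = 0 := by
      intro j
      apply CF2_zq_inj
      rw [← ho j x, ← hx, map_nsmul, hwo j, smul_zero, map_zero]
    have h5 := hinj1 (x : Hˣ) x.2 h3 h4
    have h6 : x = 1 := Subtype.ext h5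
    rw [h6, ofMul_one, map_zero] at hx
    exact CF2_div (G := H ≃ₐ[F] H) n hn w hx
  have ho' : ∀ i j, ((o i).comp (Wm D.c W).subtype) (⟨ι (Additive.ofMul ⟨v j, (hv1 j).1⟩), hx j⟩ : Wm D.c W) =
      if i = j then (zq (n • (1 - MonoidAlgebra.single D.c 1)) : MonoidAlgebra ℚ (H ≃ₐ[F] H)) else 0 := by
    intro i j
    show o i (ι (Additive.ofMul ⟨v j, (hv1 j).1⟩)) = _
    rw [ho i ⟨v j, (hv1 j).1⟩]
    show zq (ordZ F (D.w i) (v j : H)) = _
    rw [hv2 i j]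
    by_cases hij : i = j
    · rw [if_pos hij, if_pos hij]
    · rw [if_neg hij, if_neg hij, map_zero]
  have hR := RAT (MonoidAlgebra ℚ (H ≃ₐ[F] H)) (Wm D.c W) r (fun j => (o j).comp (Wm D.c W).subtype)
    (fun j => (f j).comp (Wm D.c W).subtype) (fun j => ⟨ι (Additive.ofMul ⟨v j, (hv1 j).1⟩), hx j⟩)
    (zq (n • (1 - MonoidAlgebra.single D.c 1))) ho'
    (fun w hw => Subtype.ext (hWm w w.2 hw)) u
  have hANT := ANT (H ≃ₐ[F] H) D.c W r hr f u
  have hdet : Matrix.det (fun i j => ((f i).comp (Wm D.c W).subtype)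
      (⟨ι (Additive.ofMul ⟨v j, (hv1 j).1⟩), hx j⟩ : Wm D.c W)) =
      zq (Matrix.det (fun i j => φ i (v j))) := by
    rw [RingHom.map_det]
    apply congrArg Matrix.det
    funext i j
    exact hφ2 i ⟨v j, (hv1 j).1⟩
  have hy' : (d : MonoidAlgebra ℚ (H ≃ₐ[F] H)) * (DT (fun j => (o j).comp (Wm D.c W).subtype) u *
      zq (Matrix.det (fun i j => φ i (v j)))) = (((2 * n) ^ r : ℕ) : MonoidAlgebra ℚ (H ≃ₐ[F] H)) * zq y := hy
  have he : zq (n • (1 - MonoidAlgebra.single D.c 1)) * DT (fun j => (f j).comp (Wm D.c W).subtype) u =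
      ((2 * n : ℕ) : MonoidAlgebra ℚ (H ≃ₐ[F] H)) * DT (fun j => (f j).comp (Wm D.c W).subtype) u := by
    rw [map_nsmul, map_sub, map_one, CF2_zq_single, nsmul_eq_mul, mul_assoc, sub_mul, one_mul, hANT]
    push_cast
    ring
  have he' := TR2_pow _ _ _ he r
  have hR' : zq (n • (1 - MonoidAlgebra.single D.c 1)) ^ r * DT (fun j => (f j).comp (Wm D.c W).subtype) u =
      zq (Matrix.det (fun i j => φ i (v j))) * DT (fun j => (o j).comp (Wm D.c W).subtype) u := by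
    rw [← hdet]
    exact hR
  have hkey : ((2 * n) ^ r) • ((d : MonoidAlgebra ℚ (H ≃ₐ[F] H)) * DT (fun j => (f j).comp (Wm D.c W).subtype) u -
      zq y) = 0 := by
    rw [nsmul_eq_mul, mul_sub, ← hy', sub_eq_zero, mul_comm (DT (fun j => (o j).comp (Wm D.c W).subtype) u), ← hR', he']
    push_cast
    ring
  have hkey2 := CF2_div (G := H ≃ₐ[F] H) ((2 * n) ^ r) (pow_ne_zero _ (by omega)) _ hkey
  rw [sub_eq_zero] at hkey2
  obtain ⟨x, hx'⟩ := hN f hf
  rw [map_nsmul]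
  apply RBF_zq
  intro σ
  have h3 : ∃ z : ℤ, (N : ℚ) * (DT (fun j => (f j).comp (Wm D.c W).subtype) u).coeff σ = z := by
    refine ⟨x.coeff σ, ?_⟩
    have h4 : (N • DT (fun j => (f j).comp (Wm D.c W).subtype) u).coeff σ = (zq x).coeff σ := by rw [hx']
    unfold zq at h4
    rw [MonoidAlgebra.coeff_mapRingHom, MonoidAlgebra.coeff_smul_apply, nsmul_eq_mul] at h4
    exact h4
  have h5 : ∃ z : ℤ, (d : ℚ) * 2 ^ 0 * (DT (fun j => (f j).comp (Wm D.c W).subtype) u).coeff σ = z := by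
    refine ⟨y.coeff σ, ?_⟩
    have h4 : (d • DT (fun j => (f j).comp (Wm D.c W).subtype) u).coeff σ = (zq y).coeff σ := by
      rw [nsmul_eq_mul, hkey2]
    unfold zq at h4
    rw [MonoidAlgebra.coeff_mapRingHom, MonoidAlgebra.coeff_smul_apply, nsmul_eq_mul] at h4
    rw [pow_zero, mul_one]
    exact h4
  obtain ⟨z, hz⟩ := RBF_odd hd h3 h5
  refine ⟨z, ?_⟩
  rw [MonoidAlgebra.coeff_smul_apply, nsmul_eq_mul]
  rw [pow_zero, mul_one] at hz
  exact hz

end Pool.Agent.VR
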